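import Mathlib
import Pool.Agent.Y43.CH.Final

/-!
A finitely presented co-hopfian group with a subgroup of index two that is not co-hopfian.

Let `A` be the ring of Laurent polynomials over the field with two elements with `1 + x` inverted,
`R` the semidirect product of `A` and the group of units generated by `x` and `1 + x` (Baumslag's
finitely presented metabelian group), and `W` the amalgamated product of `R` and the dihedral group
of order ten along the subgroup generated by `1` in `A`, identified with a reflection.
The group consists of the pairs `(w, s)` in `W × S_3` such that the sign of `s` is the parity of the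
exponent sum of `x` in `w`, and the subgroup of those pairs for which this parity is even.
-/

namespace Pool.Agent.Results.MP_ce3880_al.IndexTwoSubgroup

/-- There is a finitely presented group `G`, each of whose injective endomorphisms is surjective,
with a subgroup `H` of index two and an injective endomorphism of `H` that is not surjective. -/
theorem result : ∃ (G : Type) (_ : Group G) (H : Subgroup G),
    Group.IsFinitelyPresented G ∧ H.index = 2 ∧
    (∀ f : G →* G, Function.Injective f → Function.Surjective f) ∧
    ∃ f : H →* H, Function.Injective f ∧ ¬ Function.Surjective f := by
  refine ⟨Pool.Agent.Y43.CH.H, inferInstance, Pool.Agent.Y43.CH.H0, Pool.Agent.Y43.CH.H_fp,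
    Pool.Agent.Y43.CH.H0_index, Pool.Agent.Y43.CH.H_coHopfian, ?_⟩
  have h := Pool.Agent.Y43.CH.H0_not_coHopfian
  unfold Pool.Agent.Y43.CH.CoHopfian at h
  push Not at h
  exact h

end Pool.Agent.Results.MP_ce3880_al.IndexTwoSubgroup
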